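import Pool.Agent.H27.ZF.TA

/-!
Row PRD of the board zf: the product of the inverses of the local factors.
-/

set_option autoImplicit false

namespace Pool.Agent.H84.ZF

open Finset Pool.Agent.H27.ZF

/-- one block of primes -/
lemma block {m : ℕ} {C' : ℝ} (hC' : 0 < C')
    (hL : ∀ (h q : ℕ → ℂ) (x : ℂ), Inv m h q →
      (∀ k, 1 ≤ k → k ≤ m → ‖h k * x ^ k‖ ≤ 1) →
      ‖qv m q x‖ ≤ Real.exp (-(∑ k ∈ Finset.Icc 1 m, h k * x ^ k).re +
        C' * ∑ k ∈ Finset.Icc 1 m, ‖h k * x ^ k‖ ^ 2))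
    {lam : ℕ → ℂ} {q : ℕ → ℕ → ℂ} (hE : Eul m lam q) (s : ℂ) (U : Finset ℕ)
    (hU : ∀ p ∈ U, p.Prime) (D : ℝ)
    (h1 : ∀ k : ℕ, 1 ≤ k → k ≤ m →
      (∀ p ∈ U, ‖lam (p ^ k) * (p : ℂ) ^ (-((k : ℂ) * s))‖ ≤ 1) ∧
      ‖∑ p ∈ U, lam (p ^ k) * (p : ℂ) ^ (-((k : ℂ) * s))‖ +
        ∑ p ∈ U, ‖lam (p ^ k) * (p : ℂ) ^ (-((k : ℂ) * s))‖ ^ 2 ≤ D) :
    ∏ p ∈ U, ‖qv m (q p) ((p : ℂ) ^ (-s))‖ ≤ Real.exp (m * (1 + C') * D) := by
  have hpow : ∀ (p k : ℕ), ((p : ℂ) ^ (-s)) ^ k = (p : ℂ) ^ (-((k : ℂ) * s)) := by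
    intro p k
    rw [← Complex.cpow_nat_mul]
    congr 1
    ring
  calc ∏ p ∈ U, ‖qv m (q p) ((p : ℂ) ^ (-s))‖
      ≤ ∏ p ∈ U, Real.exp (-(∑ k ∈ Finset.Icc 1 m, lam (p ^ k) *
          (p : ℂ) ^ (-((k : ℂ) * s))).re +
          C' * ∑ k ∈ Finset.Icc 1 m, ‖lam (p ^ k) * (p : ℂ) ^ (-((k : ℂ) * s))‖ ^ 2) := by
        apply Finset.prod_le_prod (fun p _ => norm_nonneg _)
        intro p hp
        have h2 := hL (fun k => lam (p ^ k)) (q p) ((p : ℂ) ^ (-s)) (hE.loc p (hU p hp)) (by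
          intro k hk1 hk2
          show ‖lam (p ^ k) * ((p : ℂ) ^ (-s)) ^ k‖ ≤ 1
          rw [hpow]
          exact (h1 k hk1 hk2).1 p hp)
        simp only [hpow] at h2
        exact h2
    _ = Real.exp (∑ p ∈ U, (-(∑ k ∈ Finset.Icc 1 m, lam (p ^ k) *
          (p : ℂ) ^ (-((k : ℂ) * s))).re +
          C' * ∑ k ∈ Finset.Icc 1 m, ‖lam (p ^ k) * (p : ℂ) ^ (-((k : ℂ) * s))‖ ^ 2)) := by
        rw [Real.exp_sum]
    _ ≤ _ := by
        apply Real.exp_le_exp.2
        rw [Finset.sum_add_distrib, Finset.sum_neg_distrib, ← Finset.mul_sum, ← Complex.re_sum,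
          Finset.sum_comm, Finset.sum_comm (s := U) (t := Finset.Icc 1 m)]
        have h3 : -(∑ k ∈ Finset.Icc 1 m, ∑ p ∈ U, lam (p ^ k) *
            (p : ℂ) ^ (-((k : ℂ) * s))).re ≤
            ∑ k ∈ Finset.Icc 1 m, ‖∑ p ∈ U, lam (p ^ k) * (p : ℂ) ^ (-((k : ℂ) * s))‖ := by
          refine le_trans (neg_le_abs _) ((Complex.abs_re_le_norm _).trans (norm_sum_le _ _))
        calc -(∑ k ∈ Finset.Icc 1 m, ∑ p ∈ U, lam (p ^ k) * (p : ℂ) ^ (-((k : ℂ) * s))).re +
              C' * ∑ k ∈ Finset.Icc 1 m, ∑ p ∈ U,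
                ‖lam (p ^ k) * (p : ℂ) ^ (-((k : ℂ) * s))‖ ^ 2
            ≤ ∑ k ∈ Finset.Icc 1 m, ‖∑ p ∈ U, lam (p ^ k) * (p : ℂ) ^ (-((k : ℂ) * s))‖ +
              C' * ∑ k ∈ Finset.Icc 1 m, ∑ p ∈ U,
                ‖lam (p ^ k) * (p : ℂ) ^ (-((k : ℂ) * s))‖ ^ 2 := by linarith
          _ = ∑ k ∈ Finset.Icc 1 m, (‖∑ p ∈ U, lam (p ^ k) * (p : ℂ) ^ (-((k : ℂ) * s))‖ +
              C' * ∑ p ∈ U, ‖lam (p ^ k) * (p : ℂ) ^ (-((k : ℂ) * s))‖ ^ 2) := by
              rw [Finset.sum_add_distrib, Finset.mul_sum]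
          _ ≤ ∑ _k ∈ Finset.Icc 1 m, (1 + C') * D := by
              apply Finset.sum_le_sum
              intro k hk
              rw [Finset.mem_Icc] at hk
              have h4 := (h1 k hk.1 hk.2).2
              have h5 : 0 ≤ ∑ p ∈ U, ‖lam (p ^ k) * (p : ℂ) ^ (-((k : ℂ) * s))‖ ^ 2 :=
                Finset.sum_nonneg fun p _ => by positivity
              have h6 : 0 ≤ ‖∑ p ∈ U, lam (p ^ k) * (p : ℂ) ^ (-((k : ℂ) * s))‖ := norm_nonneg _
              nlinarith [mul_le_mul_of_nonneg_left h4 (by positivity : (0 : ℝ) ≤ 1 + C'),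
                mul_nonneg hC'.le h6]
          _ = m * (1 + C') * D := by
              rw [Finset.sum_const, Nat.card_Icc, nsmul_eq_mul]
              simp only [Nat.add_sub_cancel]
              ring

/-- the product over a subset of the primes up to `n` -/
lemma small {C : ℝ} {A : ℕ} (hC : 1 ≤ C) (n : ℕ) (S : Finset ℕ)
    (hS : S ⊆ (Finset.range (n + 1)).filter Nat.Prime) :
    ∏ p ∈ S, (C * (p : ℝ) ^ A) ≤
      ∏ p ∈ (Finset.range (n + 1)).filter Nat.Prime, (C * (p : ℝ) ^ A) := by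
  apply Finset.prod_le_prod_of_subset_of_one_le hS
  · intro p _
    positivity
  · intro p hp _
    rw [Finset.mem_filter] at hp
    have h1 : (1 : ℝ) ≤ p := by exact_mod_cast hp.2.one_lt.le
    exact one_le_mul_of_one_le_of_one_le hC (one_le_pow₀ h1)

theorem pf_PRD : T_MID → T_LQB → T_LTB → T_PRI → T_PRD := by
  intro hMID hLQB hLTB hPRI m d C0 hm hd hd2 hC0
  obtain ⟨c, C, z1, hc, hC, hz1, hMID⟩ := hMID m d hm hd hd2
  obtain ⟨C', hC', hLQB⟩ := hLQB m
  obtain ⟨C2, hC2, hLTB⟩ := hLTB m C0 hC0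
  obtain ⟨B, hB, hPRI⟩ := hPRI C2 (m * m) hC2
  refine ⟨c, hc, ?_⟩
  intro η hη
  have hm0 : (0 : ℝ) < m := by exact_mod_cast (by omega : 0 < m)
  set K : ℝ := m * (1 + C') * C with hK
  have hK0 : 0 < K := by positivity
  set ρ : ℝ := (2 : ℝ) ^ (-(d / 32)) with hρ
  have hρ0 : 0 < ρ := by positivity
  have hρ1 : ρ < 1 := Real.rpow_lt_one_of_one_lt_of_neg (by norm_num) (by linarith)
  have hρ2 : 0 < (1 - ρ)⁻¹ := inv_pos.2 (by linarith)
  obtain ⟨Z1, hZ1⟩ : ∃ Z1 : ℝ, ∀ z : ℝ, Z1 ≤ z →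
      K * (1 - ρ)⁻¹ * z ^ (-(d / 32)) ≤ η / 2 := by
    have h1 : Filter.Tendsto (fun z : ℝ => K * (1 - ρ)⁻¹ * z ^ (-(d / 32))) Filter.atTop
        (nhds (K * (1 - ρ)⁻¹ * 0)) :=
      (tendsto_rpow_neg_atTop (by positivity)).const_mul _
    rw [mul_zero] at h1
    exact Filter.eventually_atTop.1 (h1.eventually_le_const (by positivity))
  set k0 : ℝ := η / (2 * B) with hk0
  have hk0' : 0 < k0 := by positivity
  set Z2 : ℝ := max (max Z1 z1) 1 with hZ2
  have hZ20 : 0 < Z2 := lt_of_lt_of_le one_pos (le_max_right _ _)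
  refine ⟨k0, Real.exp (Z2 / k0), hk0', Real.one_le_exp (by positivity), ?_⟩
  intro lam q Q hQ hE hlam hSq z hz s hs hDp
  have hQ1 : 1 ≤ Q := (Real.one_le_exp (by positivity)).trans hQ
  have hQ0 : 0 < Q := by linarith
  have hlogQ : Z2 / k0 ≤ Real.log Q := by
    rw [Real.le_log_iff_exp_le hQ0]
    exact hQ
  have hlog0 : 0 ≤ Real.log Q := Real.log_nonneg hQ1
  set z0 : ℝ := k0 * Real.log Q with hz0
  have hz0Z : Z2 ≤ z0 := by
    rw [div_le_iff₀' hk0'] at hlogQ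
    exact hlogQ
  have hz0z1 : z1 ≤ z0 := ((le_max_right _ _).trans (le_max_left _ _)).trans hz0Z
  have hz0Z1 : Z1 ≤ z0 := ((le_max_left _ _).trans (le_max_left _ _)).trans hz0Z
  have hz01 : 1 ≤ z0 := (le_max_right _ _).trans hz0Z
  have hz00 : 0 < z0 := by linarith
  have hmid := hMID lam q Q z0 z hE hQ1 hz0z1 hz hSq s hs hDp
  set g : ℕ → ℝ := fun p => ‖qv m (q p) ((p : ℂ) ^ (-s))‖ with hg
  set PR : Finset ℕ := (Finset.range (⌊z⌋₊ + 1)).filter Nat.Prime with hPR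
  rw [norm_prod]
  change ∏ p ∈ PR, g p ≤ Q ^ η
  rw [← Finset.prod_filter_mul_prod_filter_not PR (fun p : ℕ => (p : ℝ) ≤ z0) g]
  -- the small primes
  have hA : ∏ p ∈ PR.filter (fun p : ℕ => (p : ℝ) ≤ z0), g p ≤
      Real.exp (η / 2 * Real.log Q) := by
    calc ∏ p ∈ PR.filter (fun p : ℕ => (p : ℝ) ≤ z0), g p
        ≤ ∏ p ∈ PR.filter (fun p : ℕ => (p : ℝ) ≤ z0), (C2 * (p : ℝ) ^ (m * m)) := by
          apply Finset.prod_le_prod (fun p _ => norm_nonneg _)
          intro p hp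
          rw [Finset.mem_filter, hPR, Finset.mem_filter] at hp
          have hpp : p.Prime := hp.1.2
          have hp1 : (1 : ℝ) ≤ p := by exact_mod_cast hpp.one_lt.le
          have h2 := hLTB (fun k => lam (p ^ k)) (q p) ((p : ℝ) ^ m) (hE.loc p hpp)
            (one_le_pow₀ hp1) (by
              intro k _
              have h3 := hlam (p ^ k) (Nat.one_le_pow _ _ hpp.pos)
              push_cast at h3
              calc ‖lam (p ^ k)‖ ≤ _ := h3
                _ = C0 * ((p : ℝ) ^ m) ^ k := by rw [← pow_mul, ← pow_mul, mul_comm k m])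
            ((p : ℂ) ^ (-s)) (by
              rw [Complex.norm_natCast_cpow_of_pos hpp.pos]
              apply Real.rpow_le_one_of_one_le_of_nonpos hp1
              rw [Complex.neg_re]
              linarith)
          refine h2.trans (le_of_eq ?_)
          rw [← pow_mul]
      _ ≤ ∏ p ∈ (Finset.range (⌊z0⌋₊ + 1)).filter Nat.Prime, (C2 * (p : ℝ) ^ (m * m)) := by
          apply small hC2
          intro p hp
          rw [Finset.mem_filter, hPR, Finset.mem_filter] at hp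
          rw [Finset.mem_filter, Finset.mem_range, Nat.lt_succ_iff]
          exact ⟨Nat.le_floor hp.2, hp.1.2⟩
      _ ≤ Real.exp (B * ⌊z0⌋₊) := hPRI _
      _ ≤ Real.exp (η / 2 * Real.log Q) := by
          apply Real.exp_le_exp.2
          calc B * ⌊z0⌋₊ ≤ B * z0 := mul_le_mul_of_nonneg_left (Nat.floor_le hz00.le) hB.le
            _ = _ := by
              rw [hz0, hk0]
              field_simp
  -- one block
  have hBk : ∀ j : ℕ, ∏ p ∈ (PR.filter (fun p : ℕ => ¬ (p : ℝ) ≤ z0)).filter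
      (fun p => Nat.clog 2 p = j), g p ≤
      Real.exp (K * Real.log Q * z0 ^ (-(d / 32)) * ρ ^ j) := by
    intro j
    have hnn : 0 ≤ K * Real.log Q * z0 ^ (-(d / 32)) * ρ ^ j := by positivity
    set U : Finset ℕ := (PR.filter (fun p : ℕ => ¬ (p : ℝ) ≤ z0)).filter
      (fun p => Nat.clog 2 p = j) with hU
    rcases U.eq_empty_or_nonempty with h0 | ⟨p0, hp0⟩
    · rw [h0, Finset.prod_empty]
      exact Real.one_le_exp hnn
    · have hmemU : ∀ p ∈ U, p.Prime ∧ z0 < (p : ℝ) ∧ (p : ℝ) ≤ z ∧ Nat.clog 2 p = j := by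
        intro p hp
        rw [hU, Finset.mem_filter, Finset.mem_filter, hPR, Finset.mem_filter, Finset.mem_range,
          Nat.lt_succ_iff] at hp
        obtain ⟨⟨⟨h1, h2⟩, h3⟩, h4⟩ := hp
        exact ⟨h2, not_le.1 h3, (Nat.le_floor_iff' h2.ne_zero).1 h1, h4⟩
      have hj : 1 ≤ j := by
        obtain ⟨h1, -, -, h4⟩ := hmemU p0 hp0
        rw [← h4]
        exact Nat.clog_pos one_lt_two h1.one_lt
      have hUP : U = UP z0 z j := by
        ext p
        rw [hU, Finset.mem_filter, Finset.mem_filter, hPR, Finset.mem_filter, Finset.mem_range,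
          Nat.lt_succ_iff]
        unfold UP
        rw [Finset.mem_filter, Finset.mem_Ioc]
        constructor
        · rintro ⟨⟨⟨h1, h2⟩, h3⟩, h4⟩
          refine ⟨⟨?_, ?_⟩, h2, not_le.1 h3, (Nat.le_floor_iff' h2.ne_zero).1 h1⟩
          · rw [← h4]
            exact Nat.pow_pred_clog_lt_self one_lt_two h2.one_lt
          · rw [← h4]
            exact Nat.le_pow_clog one_lt_two p
        · rintro ⟨⟨h1, h2⟩, h3, h4, h5⟩
          refine ⟨⟨⟨(Nat.le_floor_iff' h3.ne_zero).2 h5, h3⟩, not_le.2 h4⟩, ?_⟩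
          apply le_antisymm
          · exact (Nat.clog_le_iff_le_pow one_lt_two).2 h2
          · have := (Nat.lt_clog_iff_pow_lt one_lt_two).2 h1
            omega
      have hb := block hC' hLQB hE s (UP z0 z j) (fun p hp => (Finset.mem_filter.1 hp).2.1)
        (C * Real.log Q * (2 : ℝ) ^ (-((j : ℝ) * (d / 16)))) (fun k hk1 hk2 => hmid j k hj hk1 hk2)
      rw [hUP]
      refine hb.trans (Real.exp_le_exp.2 ?_)
      have h2j : z0 ≤ (2 : ℝ) ^ j := by
        obtain ⟨h1, h2, h3, h4⟩ := hmemU p0 hp0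
        have h5 := Nat.le_pow_clog one_lt_two p0
        rw [h4] at h5
        have h6 : (p0 : ℝ) ≤ 2 ^ j := by exact_mod_cast h5
        linarith
      have h7 : (2 : ℝ) ^ (-((j : ℝ) * (d / 16))) ≤ z0 ^ (-(d / 32)) * ρ ^ j := by
        have e1 : (2 : ℝ) ^ (-((j : ℝ) * (d / 16))) = ((2 : ℝ) ^ j) ^ (-(d / 32)) * ρ ^ j := by
          rw [hρ, ← Real.rpow_natCast 2 j, ← Real.rpow_mul (by norm_num), ← Real.rpow_natCast,
            ← Real.rpow_mul (by norm_num), ← Real.rpow_add (by norm_num)]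
          congr 1
          ring
        rw [e1]
        apply mul_le_mul_of_nonneg_right _ (by positivity)
        exact Real.rpow_le_rpow_of_nonpos hz00 h2j (by linarith)
      calc m * (1 + C') * (C * Real.log Q * (2 : ℝ) ^ (-((j : ℝ) * (d / 16))))
          = K * Real.log Q * (2 : ℝ) ^ (-((j : ℝ) * (d / 16))) := by
            rw [hK]
            ring
        _ ≤ K * Real.log Q * (z0 ^ (-(d / 32)) * ρ ^ j) :=
            mul_le_mul_of_nonneg_left h7 (by positivity)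
        _ = _ := by ring
  -- the large primes
  have hBig : ∏ p ∈ PR.filter (fun p : ℕ => ¬ (p : ℝ) ≤ z0), g p ≤
      Real.exp (η / 2 * Real.log Q) := by
    have hmaps : ∀ p ∈ PR.filter (fun p : ℕ => ¬ (p : ℝ) ≤ z0),
        Nat.clog 2 p ∈ Finset.range (⌊z⌋₊ + 1) := by
      intro p hp
      rw [Finset.mem_filter, hPR, Finset.mem_filter, Finset.mem_range, Nat.lt_succ_iff] at hp
      rw [Finset.mem_range, Nat.lt_succ_iff]
      exact (Nat.clog_le_of_le_pow Nat.lt_two_pow_self.le).trans hp.1.1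
    rw [← Finset.prod_fiberwise_of_maps_to hmaps g]
    calc _ ≤ ∏ j ∈ Finset.range (⌊z⌋₊ + 1),
          Real.exp (K * Real.log Q * z0 ^ (-(d / 32)) * ρ ^ j) := by
          apply Finset.prod_le_prod
          · intro j _
            exact Finset.prod_nonneg fun p _ => norm_nonneg _
          · intro j _
            exact hBk j
      _ = Real.exp (K * Real.log Q * z0 ^ (-(d / 32)) *
            ∑ j ∈ Finset.range (⌊z⌋₊ + 1), ρ ^ j) := by
          rw [← Real.exp_sum, Finset.mul_sum]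
      _ ≤ _ := by
          apply Real.exp_le_exp.2
          have h1 : ∑ j ∈ Finset.range (⌊z⌋₊ + 1), ρ ^ j ≤ (1 - ρ)⁻¹ := by
            rw [← tsum_geometric_of_lt_one hρ0.le hρ1]
            exact (summable_geometric_of_lt_one hρ0.le hρ1).sum_le_tsum _
              (fun _ _ => by positivity)
          calc K * Real.log Q * z0 ^ (-(d / 32)) * ∑ j ∈ Finset.range (⌊z⌋₊ + 1), ρ ^ j
              ≤ K * Real.log Q * z0 ^ (-(d / 32)) * (1 - ρ)⁻¹ :=
                mul_le_mul_of_nonneg_left h1 (by positivity)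
            _ = (K * (1 - ρ)⁻¹ * z0 ^ (-(d / 32))) * Real.log Q := by ring
            _ ≤ η / 2 * Real.log Q := mul_le_mul_of_nonneg_right (hZ1 z0 hz0Z1) hlog0
  calc (∏ p ∈ PR.filter (fun p : ℕ => (p : ℝ) ≤ z0), g p) *
        ∏ p ∈ PR.filter (fun p : ℕ => ¬ (p : ℝ) ≤ z0), g p
      ≤ Real.exp (η / 2 * Real.log Q) * Real.exp (η / 2 * Real.log Q) :=
        mul_le_mul hA hBig (Finset.prod_nonneg fun p _ => norm_nonneg _) (Real.exp_pos _).le
    _ = Q ^ η := by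
        rw [← Real.exp_add, Real.rpow_def_of_pos hQ0]
        congr 1
        ring

end Pool.Agent.H84.ZF
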